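import Pool.Agent.Helper99.CT.Defs

/-!
Project CT (MP_2b0b8a_al), packet CT-WPE: the groups `W(r_1, …, r_s)` with `2 r_1 ⋯ r_s ≤ n` are
2-groups and embed into the symmetric group on `n` points.
-/

set_option autoImplicit false

namespace Pool.Agent.Helper35.CT

open Pool.Agent.Helper99.CT

section Step

variable {A : Type} [Group A] {Ω : Type} (f : A →* Equiv.Perm Ω) (r : ℕ)

/-- The action of `A^r` on `r` copies of `Ω`. -/
def baseHom : (Fin r → A) →* Equiv.Perm (Fin r × Ω) where
  toFun g :=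
    { toFun := fun x => (x.1, f (g x.1) x.2)
      invFun := fun x => (x.1, (f (g x.1)).symm x.2)
      left_inv := fun x => by simp
      right_inv := fun x => by simp }
  map_one' := by
    ext x <;> simp
  map_mul' g h := by
    ext x <;> simp

theorem baseHom_apply (g : Fin r → A) (i : Fin r) (o : Ω) :
    baseHom f r g (i, o) = (i, f (g i) o) := rfl

/-- The reversal of the copies. -/
def revP (Ω : Type) (r : ℕ) : Equiv.Perm (Fin r × Ω) where
  toFun x := (x.1.rev, x.2)
  invFun x := (x.1.rev, x.2)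
  left_inv x := by simp
  right_inv x := by simp

theorem revP_sq (Ω : Type) (r : ℕ) : revP Ω r * revP Ω r = 1 := by
  ext x <;> simp [revP]

theorem step (hf : Function.Injective f) (hr : 2 ≤ r) [Nonempty Ω] :
    ∃ F : ((Fin r → A) ⋊[act A r] C2) →* Equiv.Perm (Fin r × Ω), Function.Injective F := by
  refine ⟨SemidirectProduct.lift (baseHom f r) (invHom (revP Ω r) (revP_sq Ω r)) ?_, ?_⟩
  · intro z
    rcases C2_cases z with rfl | rfl
    · ext g x <;> simp
    · apply MonoidHom.ext
      intro g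
      show baseHom f r (act A r (Multiplicative.ofAdd 1) g) =
        (MulAut.conj (invHom (revP Ω r) (revP_sq Ω r) (Multiplicative.ofAdd 1))) (baseHom f r g)
      have h1 : invHom (revP Ω r) (revP_sq Ω r) (Multiplicative.ofAdd 1) = revP Ω r := by
        simp [invHom]
      have h2 : act A r (Multiplicative.ofAdd 1) = rev A r := by
        show (if (Multiplicative.ofAdd 1 : C2) = 1 then 1 else rev A r) = rev A r
        rw [if_neg C2_ne]
      rw [h1, h2, MulAut.conj_apply, eq_mul_inv_iff_mul_eq]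
      apply Equiv.ext
      rintro ⟨i, o⟩
      show (i.rev, f (g i.rev.rev) o) = (i.rev, f (g i) o)
      rw [Fin.rev_rev]
  · rw [injective_iff_map_eq_one]
    rintro ⟨g, z⟩ h
    have h0 : baseHom f r g * invHom (revP Ω r) (revP_sq Ω r) z = 1 := h
    rcases C2_cases z with rfl | rfl
    · rw [map_one, mul_one] at h0
      have hg : g = 1 := by
        funext i
        apply hf
        rw [Pi.one_apply, map_one]
        apply Equiv.ext
        intro o
        have h1 := congrArg (fun σ => (σ (i, o)).2) h0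
        exact h1
      subst hg
      rfl
    · exfalso
      have h1 : invHom (revP Ω r) (revP_sq Ω r) (Multiplicative.ofAdd 1) = revP Ω r := by
        simp [invHom]
      rw [h1] at h0
      obtain ⟨o⟩ := ‹Nonempty Ω›
      have h2 := congrArg (fun σ => ((σ ((⟨0, by omega⟩ : Fin r), o)).1 : ℕ)) h0
      have h3 : ((⟨0, by omega⟩ : Fin r).rev : ℕ) = 0 := h2
      rw [Fin.val_rev] at h3
      simp only at h3
      omega

end Step

theorem embeds_congr {G : Type} [Group G] {a b : ℕ} (h : a = b)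
    (hG : Embeds G (Equiv.Perm (Fin a))) : Embeds G (Equiv.Perm (Fin b)) := by
  subst h; exact hG

theorem embeds_trans {G H K : Type} [Group G] [Group H] [Group K] (h1 : Embeds G H)
    (h2 : Embeds H K) : Embeds G K := by
  obtain ⟨f, hf⟩ := h1
  obtain ⟨g, hg⟩ := h2
  exact ⟨g.comp f, hg.comp hf⟩

theorem embeds_perm {α β : Type} (ι : α ↪ β) : Embeds (Equiv.Perm α) (Equiv.Perm β) :=
  ⟨Equiv.Perm.viaEmbeddingHom ι, Equiv.Perm.viaEmbeddingHom_injective ι⟩

theorem embeds_wr (A : GrpCat.{0}) (r c : ℕ) (hr : 2 ≤ r) (hc : 1 ≤ c)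
    (hA : Embeds A (Equiv.Perm (Fin c))) : Embeds (wr A r) (Equiv.Perm (Fin (r * c))) := by
  obtain ⟨f, hf⟩ := hA
  have : Nonempty (Fin c) := ⟨⟨0, hc⟩⟩
  obtain ⟨F, hF⟩ := step f r hf hr
  have h1 : Embeds (wr A r) (Equiv.Perm (Fin r × Fin c)) := ⟨F, hF⟩
  exact embeds_trans h1 (embeds_perm finProdFinEquiv.toEmbedding)

theorem embeds_foldl (l : List ℕ) (hl : ∀ r ∈ l, 2 ≤ r) : ∀ (A : GrpCat.{0}) (c : ℕ), 1 ≤ c →
    Embeds A (Equiv.Perm (Fin c)) →
    Embeds (l.foldl wr A : GrpCat.{0}) (Equiv.Perm (Fin (c * l.prod))) := by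
  induction l with
  | nil =>
    intro A c _ hA
    exact embeds_congr (by simp) hA
  | cons r l ih =>
    intro A c hc hA
    have hr : 2 ≤ r := hl r List.mem_cons_self
    have h1 := ih (fun r hr => hl r (List.mem_cons_of_mem _ hr)) (wr A r) (r * c)
      (Nat.mul_pos (by omega) hc) (embeds_wr A r c hr hc hA)
    exact embeds_congr (by rw [List.prod_cons]; ring) h1

theorem embeds_C2 : Embeds C2 (Equiv.Perm (Fin 2)) := by
  refine ⟨invHom (Equiv.swap 0 1) (Equiv.swap_mul_self 0 1), ?_⟩
  intro a b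
  revert a b
  decide

theorem wperm : GoalWPerm := by
  intro n l hl hn
  obtain ⟨h1, h2⟩ := card_W l
  refine ⟨h1, IsPGroup.of_card h2, ?_⟩
  have h3 : Embeds (W l) (Equiv.Perm (Fin (2 * l.prod))) :=
    embeds_foldl l hl (GrpCat.of C2) 2 (by norm_num) embeds_C2
  exact embeds_trans h3 (embeds_perm (Fin.castLEEmb hn))

end Pool.Agent.Helper35.CT
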